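import Pool.Agent.Y904.GS.Fin

/-!
# gcd-sunflowers and ordinary sunflowers: the two exponential bounds are equivalent
-/

set_option autoImplicit false

namespace Pool.Agent.Y904.GS

open Finset

/-- ordinary sunflowers: all pairs of distinct members have the same intersection -/
def IsSun (G : Finset (Finset ℕ)) : Prop := ∃ Y : Finset ℕ, ∀ S ∈ G, ∀ T ∈ G, S ≠ T → S ∩ T = Y

/-- exponential bound for ordinary sunflowers -/
def SunR (r : ℕ) (c : ℝ) : Prop := ∀ (k : ℕ) (F : Finset (Finset ℕ)), (∀ S ∈ F, S.card = k) →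
  (∀ G ⊆ F, G.card = r → ¬ IsSun G) → (F.card : ℝ) ≤ c ^ k

/-- exponential bound for gcd-sunflowers -/
def GcdR (r : ℕ) (c : ℝ) : Prop := ∀ (k : ℕ) (A : Finset ℕ),
  (∀ a ∈ A, 0 < a ∧ ArithmeticFunction.cardFactors a = k) →
  (∀ S ⊆ A, S.card = r → ¬ IsGcdSunflower S) → (A.card : ℝ) ≤ c ^ k

theorem Omega_prod (s : Finset ℕ) : (∀ p ∈ s, p.Prime) →
    ArithmeticFunction.cardFactors (∏ p ∈ s, p) = s.card := by
  classical
  induction s using Finset.induction_on with
  | empty => intro _; simp
  | insert p s hp ih =>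
    intro h
    have hs : ∀ q ∈ s, q.Prime := fun q hq => h q (mem_insert_of_mem hq)
    have hp' : p.Prime := h p (mem_insert_self _ _)
    rw [prod_insert hp, ArithmeticFunction.cardFactors_mul hp'.ne_zero
      (prod_ne_zero_iff.2 fun q hq => (hs q hq).ne_zero), ih hs,
      ArithmeticFunction.cardFactors_apply_prime hp', card_insert_of_notMem hp, add_comm]

/-- the squarefree number with the prime factors `p_i`, `i ∈ S` -/
noncomputable def NN (S : Finset ℕ) : ℕ := ∏ p ∈ S.image (Nat.nth Nat.Prime), p

theorem nth_inj : Function.Injective (Nat.nth Nat.Prime) := Nat.nth_injective Nat.infinite_setOfPred_prime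

theorem pr (S : Finset ℕ) : ∀ p ∈ S.image (Nat.nth Nat.Prime), p.Prime := by
  intro p hp
  obtain ⟨i, -, rfl⟩ := mem_image.1 hp
  exact Nat.prime_nth_prime i

theorem NN_ne (S : Finset ℕ) : NN S ≠ 0 := prod_ne_zero_iff.2 fun q hq => (pr S q hq).ne_zero

theorem NN_pf (S : Finset ℕ) : (NN S).primeFactors = S.image (Nat.nth Nat.Prime) :=
  Nat.primeFactors_prod (pr S)

theorem NN_inj : Function.Injective NN := by
  intro S T h
  have h1 : S.image (Nat.nth Nat.Prime) = T.image (Nat.nth Nat.Prime) := by
    rw [← NN_pf, ← NN_pf, h]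
  exact image_injective nth_inj h1

theorem gcd_to_sun {r : ℕ} {c : ℝ} (h : GcdR r c) : SunR r c := by
  classical
  intro k F hF hfree
  have hc : (F.image NN).card = F.card := card_image_of_injective _ NN_inj
  rw [← hc]
  apply h k
  · intro a ha
    obtain ⟨S, hS, rfl⟩ := mem_image.1 ha
    refine ⟨Nat.pos_of_ne_zero (NN_ne S), ?_⟩
    rw [NN, Omega_prod _ (pr S), card_image_of_injective _ nth_inj, hF S hS]
  · intro G' hG' hcard hsun
    obtain ⟨d, -, h1, -⟩ := hsun
    obtain ⟨G, hG, rfl⟩ := Finset.subset_image_iff.1 hG'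
    rw [card_image_of_injective _ NN_inj] at hcard
    refine hfree G (by exact_mod_cast hG) hcard ?_
    refine ⟨d.primeFactors.preimage (Nat.nth Nat.Prime) nth_inj.injOn, ?_⟩
    intro S hS T hT hST
    have h2 := h1 (NN S) (mem_image_of_mem _ hS) (NN T) (mem_image_of_mem _ hT)
      (fun he => hST (NN_inj he))
    have h3 : d.primeFactors = (S ∩ T).image (Nat.nth Nat.Prime) := by
      rw [← h2, Nat.primeFactors_gcd (NN_ne S) (NN_ne T), NN_pf, NN_pf, image_inter _ _ nth_inj]
    ext i
    simp only [mem_preimage, h3]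
    constructor
    · intro hi
      exact mem_image_of_mem _ hi
    · intro hi
      obtain ⟨j, hj, hji⟩ := mem_image.1 hi
      rw [← nth_inj hji]
      exact hj

theorem sun_to_gcd {r : ℕ} (hr : 2 ≤ r) {c : ℝ} (hc : 1 ≤ c) (h : SunR r c) : GcdR r (4 * c) := by
  classical
  intro k A hA hfree
  set U : Finset ℕ := A.biUnion Nat.primeFactors with hU
  have hUs : ∀ a ∈ A, a.primeFactors ⊆ U := fun a ha => subset_biUnion_of_mem _ ha
  obtain ⟨A', h1, h2, h3⟩ := pick U A
  have hw : ∑ a ∈ A, wt U a = A.card * (1 / 2 : ℝ) ^ k := by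
    rw [sum_congr rfl fun a ha => wt_eq U a k (hA a ha).2 (hUs a ha), sum_const, nsmul_eq_mul]
  have hcardf : ∀ a ∈ A', a.primeFactors.card ∈ range (k + 1) := by
    intro a ha
    rw [mem_range, ← (hA a (h1 ha)).2, Nat.lt_succ_iff]
    exact omega_le a
  have hinj : Set.InjOn Nat.primeFactors (A' : Set ℕ) := by
    intro a ha b hb hab
    apply Nat.eq_of_factorization_eq (hA a (h1 ha)).1.ne' (hA b (h1 hb)).1.ne'
    intro p
    by_cases hp : p ∈ a.primeFactors
    · have hp' : p ∈ b.primeFactors := hab ▸ hp
      apply h3 p (hUs a (h1 ha) hp) a ha b hb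
      · rwa [← Finsupp.mem_support_iff, Nat.support_factorization]
      · rwa [← Finsupp.mem_support_iff, Nat.support_factorization]
    · have hp' : p ∉ b.primeFactors := hab ▸ hp
      rw [← Nat.support_factorization, Finsupp.mem_support_iff, not_not] at hp hp'
      rw [hp, hp']
  have hfib : ∀ j ∈ range (k + 1), ((A'.filter (fun a => a.primeFactors.card = j)).card : ℝ) ≤ c ^ k := by
    intro j hj
    rw [mem_range] at hj
    set B := A'.filter (fun a => a.primeFactors.card = j) with hB
    have hBA : B ⊆ A' := filter_subset _ _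
    have hinjB : Set.InjOn Nat.primeFactors (B : Set ℕ) := hinj.mono (by exact_mod_cast hBA)
    rw [← card_image_of_injOn hinjB]
    refine (h j (B.image Nat.primeFactors) ?_ ?_).trans (pow_le_pow_right₀ hc (by omega))
    · intro S hS
      obtain ⟨a, ha, rfl⟩ := mem_image.1 hS
      exact (mem_filter.1 ha).2
    · intro G hG hcard hsun
      obtain ⟨Y, hY⟩ := hsun
      have hcG : Fintype.card {x // x ∈ G} = Fintype.card (Fin r) := by
        rw [Fintype.card_coe, Fintype.card_fin, hcard]
      let e : Fin r ≃ {x // x ∈ G} := (Fintype.equivOfCardEq hcG).symm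
      have hch : ∀ i : Fin r, ∃ a ∈ B, a.primeFactors = (e i).1 := fun i => mem_image.1 (hG (e i).2)
      choose a haB haP using hch
      have hne : ∀ i i', i ≠ i' → (e i).1 ≠ (e i').1 := by
        intro i i' hii h'
        exact hii (e.injective (Subtype.ext h'))
      have hL := lift hr a (fun i => (hA _ (h1 (hBA (haB i)))).1.ne') (by
          intro p i i' g1 g2
          have hpU : p ∈ U := by
            apply hUs _ (h1 (hBA (haB i)))
            rw [← Nat.support_factorization, Finsupp.mem_support_iff]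
            exact g1
          exact h3 p hpU _ (hBA (haB i)) _ (hBA (haB i')) g1 g2) Y (by
          intro i i' hii
          rw [haP, haP]
          exact hY _ (e i).2 _ (e i').2 (hne i i' hii)) (by
          intro i
          obtain ⟨i', hi'⟩ : ∃ i' : Fin r, i ≠ i' := by
            by_cases hh : i = ⟨0, by omega⟩
            · refine ⟨⟨1, by omega⟩, ?_⟩
              rw [hh]
              intro hcon
              have := congrArg Fin.val hcon
              simp at this
            · exact ⟨⟨0, by omega⟩, hh⟩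
          have h5 := hY _ (e i).2 _ (e i').2 (hne i i' hi')
          rw [haP]
          refine Finset.ssubset_iff_subset_ne.2 ⟨?_, ?_⟩
          · rw [← h5]; exact inter_subset_left
          · intro hcon
            have h6 : (e i).1 ⊆ (e i').1 := by
              rw [← hcon, ← h5]; exact inter_subset_right
            have c1 : (e i).1.card = j := by rw [← haP i]; exact (mem_filter.1 (haB i)).2
            have c2 : (e i').1.card = j := by rw [← haP i']; exact (mem_filter.1 (haB i')).2
            exact hne i i' hi' (eq_of_subset_of_card_le h6 (by rw [c1, c2])))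
      refine hfree (univ.image a) ?_ ?_ hL.2
      · intro x hx
        obtain ⟨i, -, rfl⟩ := mem_image.1 hx
        exact h1 (hBA (haB i))
      · rw [card_image_of_injective _ hL.1, card_univ, Fintype.card_fin]
  have h4 : (A'.card : ℝ) ≤ (k + 1) * c ^ k := by
    rw [card_eq_sum_card_fiberwise hcardf]
    push_cast
    calc _ ≤ ∑ _j ∈ range (k + 1), c ^ k := sum_le_sum hfib
      _ = (k + 1) * c ^ k := by rw [sum_const, card_range, nsmul_eq_mul]; push_cast; ring
  rw [hw] at h2
  have hp : (0:ℝ) < 2 ^ k := by positivity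
  have h5 : (A.card : ℝ) ≤ 2 ^ k * A'.card := by
    have : (A.card : ℝ) = 2 ^ k * (A.card * (1 / 2 : ℝ) ^ k) := by
      rw [one_div, inv_pow]; field_simp
    rw [this]
    exact mul_le_mul_of_nonneg_left h2 hp.le
  have h7 : ((k:ℝ) + 1) ≤ 2 ^ k := by
    have : k + 1 ≤ 2 ^ k := Nat.lt_two_pow_self
    exact_mod_cast this
  have hck : 0 < c ^ k := by positivity
  calc (A.card : ℝ) ≤ 2 ^ k * A'.card := h5
    _ ≤ 2 ^ k * (2 ^ k * c ^ k) :=
      mul_le_mul_of_nonneg_left (h4.trans (mul_le_mul_of_nonneg_right h7 hck.le)) hp.le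
    _ = (4 * c) ^ k := by
        rw [mul_pow, ← mul_assoc, ← mul_pow]; norm_num

end Pool.Agent.Y904.GS
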