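import Pool.Agent.Y904.GS.Red

/-!
# The bound for sets without gcd-sunflowers
-/

set_option autoImplicit false

namespace Pool.Agent.Y904.GS

open Finset

theorem wt_eq (U : Finset ℕ) (a k : ℕ) (hk : ArithmeticFunction.cardFactors a = k)
    (hU : a.primeFactors ⊆ U) : wt U a = (1 / 2 : ℝ) ^ k := by
  unfold wt
  rw [prod_pow_eq_pow_sum]
  congr 1
  rw [← hk, ArithmeticFunction.cardFactors_eq_sum_factorization, Finsupp.sum,
    Nat.support_factorization]
  symm
  apply sum_subset hU
  intro p _ hp
  rw [← Nat.support_factorization, Finsupp.mem_support_iff, not_not] at hp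
  exact hp

theorem omega_le (a : ℕ) : a.primeFactors.card ≤ ArithmeticFunction.cardFactors a := by
  rw [ArithmeticFunction.cardFactors_eq_sum_factorization, Finsupp.sum,
    Nat.support_factorization, card_eq_sum_ones]
  apply sum_le_sum
  intro p hp
  rw [← Nat.support_factorization, Finsupp.mem_support_iff] at hp
  omega

theorem sub_card (U : Finset ℕ) (S : Finset ℕ) (h : S ⊆ U) : (S.subtype (· ∈ U)).card = S.card := by
  rw [card_subtype, filter_true_of_mem h]

/-- the bound for the members with exactly `j` primes -/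
theorem fiber {r : ℕ} (hr : 2 ≤ r) (k j : ℕ) (hjk : j ≤ k) (U A : Finset ℕ) (h0 : ∀ a ∈ A, a ≠ 0)
    (hU : ∀ a ∈ A, a.primeFactors ⊆ U) (hj : ∀ a ∈ A, a.primeFactors.card = j)
    (he : ∀ p ∈ U, ∀ a ∈ A, ∀ b ∈ A, a.factorization p ≠ 0 → b.factorization p ≠ 0 →
      a.factorization p = b.factorization p)
    (hfree : ∀ S ⊆ A, S.card = r → ¬ IsGcdSunflower S) :
    A.card ≤ (64 * r ^ 2 * (Nat.log 2 k + 1)) ^ j := by
  classical
  by_contra hcon
  rw [not_le] at hcon
  let φ : ℕ → Finset {x // x ∈ U} := fun a => a.primeFactors.subtype (· ∈ U)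
  have hinj : Set.InjOn φ (A : Set ℕ) := by
    intro a ha b hb hab
    have h1 : a.primeFactors = b.primeFactors := by
      ext p
      constructor
      · intro hp
        have h2 : (⟨p, hU a ha hp⟩ : {x // x ∈ U}) ∈ φ a := by
          simp only [φ, mem_subtype]; exact hp
        rw [hab] at h2
        simpa only [φ, mem_subtype] using h2
      · intro hp
        have h2 : (⟨p, hU b hb hp⟩ : {x // x ∈ U}) ∈ φ b := by
          simp only [φ, mem_subtype]; exact hp
        rw [← hab] at h2
        simpa only [φ, mem_subtype] using h2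
    apply Nat.eq_of_factorization_eq (h0 a ha) (h0 b hb)
    intro p
    by_cases hp : p ∈ a.primeFactors
    · have hp' : p ∈ b.primeFactors := h1 ▸ hp
      apply he p (hU a ha hp) a ha b hb
      · rwa [← Finsupp.mem_support_iff, Nat.support_factorization]
      · rwa [← Finsupp.mem_support_iff, Nat.support_factorization]
    · have hp' : p ∉ b.primeFactors := h1 ▸ hp
      rw [← Nat.support_factorization, Finsupp.mem_support_iff, not_not] at hp hp'
      rw [hp, hp']
  have hcard : (A.image φ).card = A.card := card_image_of_injOn hinj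
  obtain ⟨Y, P, hP, hPI⟩ := sunflower (V := {x // x ∈ U}) (κ := r) r (Nat.log 2 k + 1)
    (64 * r ^ 2 * (Nat.log 2 k + 1)) j (by omega) (by omega) (by omega)
    (Nat.lt_pow_self (by norm_num)) (le_of_eq (by ring))
    (lt_of_le_of_lt hjk (Nat.lt_pow_succ_log_self (by norm_num) k)) (A.image φ)
    (by
      intro S hS
      obtain ⟨a, ha, rfl⟩ := mem_image.1 hS
      rw [show φ a = a.primeFactors.subtype (· ∈ U) from rfl, sub_card U _ (hU a ha)]
      exact hj a ha) (by rw [hcard]; exact hcon)
  have hch : ∀ i : Fin r, ∃ a ∈ A, φ a = P i := fun i => mem_image.1 (hP i).1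
  choose a haA haP using hch
  have hval : ∀ i p, p ∈ (a i).primeFactors ↔ ∃ h : p ∈ U, (⟨p, h⟩ : {x // x ∈ U}) ∈ P i := by
    intro i p
    constructor
    · intro hp
      refine ⟨hU _ (haA i) hp, ?_⟩
      rw [← haP i]
      simp only [φ, mem_subtype]; exact hp
    · rintro ⟨h, hp⟩
      rw [← haP i] at hp
      simpa only [φ, mem_subtype] using hp
  set Y' : Finset ℕ := Y.image Subtype.val with hY'
  have hYmem : ∀ p, p ∈ Y' ↔ ∃ h : p ∈ U, (⟨p, h⟩ : {x // x ∈ U}) ∈ Y := by
    intro p
    rw [hY', mem_image]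
    constructor
    · rintro ⟨⟨q, hq⟩, h1, rfl⟩
      exact ⟨hq, h1⟩
    · rintro ⟨h, h1⟩
      exact ⟨⟨p, h⟩, h1, rfl⟩
  have hL := lift hr a (fun i => h0 _ (haA i)) (by
      intro p i i' h1 h2
      have hpU : p ∈ U := by
        apply hU _ (haA i)
        rw [← Nat.support_factorization, Finsupp.mem_support_iff]
        exact h1
      exact he p hpU _ (haA i) _ (haA i') h1 h2) Y' (by
      intro i i' hne
      ext p
      rw [mem_inter, hval, hval, hYmem]
      constructor
      · rintro ⟨⟨h, h1⟩, ⟨_, h2⟩⟩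
        refine ⟨h, ?_⟩
        rw [← hPI i i' hne, mem_inter]
        exact ⟨h1, h2⟩
      · rintro ⟨h, h1⟩
        rw [← hPI i i' hne, mem_inter] at h1
        exact ⟨⟨h, h1.1⟩, ⟨h, h1.2⟩⟩) (by
      intro i
      obtain ⟨h1, h2⟩ := Finset.ssubset_iff_subset_ne.1 (hP i).2
      refine Finset.ssubset_iff_subset_ne.2 ⟨?_, ?_⟩
      · intro p hp
        obtain ⟨h, hp'⟩ := (hYmem p).1 hp
        exact (hval i p).2 ⟨h, h1 hp'⟩
      · intro heq
        apply h2
        ext ⟨p, h⟩
        constructor
        · intro hp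
          exact h1 hp
        · intro hp
          have h3 : p ∈ (a i).primeFactors := (hval i p).2 ⟨h, hp⟩
          rw [← heq, hYmem] at h3
          exact h3.2)
  refine hfree (univ.image a) ?_ ?_ hL.2
  · intro x hx
    obtain ⟨i, -, rfl⟩ := mem_image.1 hx
    exact haA i
  · rw [card_image_of_injective _ hL.1, card_univ, Fintype.card_fin]

/-- sets of positive integers with `k` prime factors and without a gcd-sunflower -/
theorem bound {r : ℕ} (hr : 2 ≤ r) (k : ℕ) (A : Finset ℕ)
    (hA : ∀ a ∈ A, 0 < a ∧ ArithmeticFunction.cardFactors a = k)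
    (hfree : ∀ S ⊆ A, S.card = r → ¬ IsGcdSunflower S) :
    A.card ≤ (256 * r ^ 2 * (Nat.log 2 k + 1)) ^ k := by
  classical
  set U : Finset ℕ := A.biUnion Nat.primeFactors with hU
  have hUs : ∀ a ∈ A, a.primeFactors ⊆ U := fun a ha => subset_biUnion_of_mem _ ha
  obtain ⟨A', h1, h2, h3⟩ := pick U A
  set R := 64 * r ^ 2 * (Nat.log 2 k + 1) with hR
  have hR1 : 1 ≤ R := by
    rw [hR]
    have : 0 < r ^ 2 := by positivity
    have : 0 < 64 * r ^ 2 * (Nat.log 2 k + 1) := by positivity
    omega
  have hw : ∑ a ∈ A, wt U a = A.card * (1 / 2 : ℝ) ^ k := by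
    rw [sum_congr rfl fun a ha => wt_eq U a k (hA a ha).2 (hUs a ha), sum_const, nsmul_eq_mul]
  have hcardf : ∀ a ∈ A', a.primeFactors.card ∈ range (k + 1) := by
    intro a ha
    rw [mem_range, ← (hA a (h1 ha)).2, Nat.lt_succ_iff]
    exact omega_le a
  have h4 : A'.card ≤ (k + 1) * R ^ k := by
    rw [card_eq_sum_card_fiberwise hcardf]
    calc ∑ j ∈ range (k + 1), (A'.filter (fun a => a.primeFactors.card = j)).card
        ≤ ∑ _j ∈ range (k + 1), R ^ k := by
          apply sum_le_sum
          intro j hj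
          rw [mem_range] at hj
          refine le_trans (fiber hr k j (by omega) U (A'.filter (fun a => a.primeFactors.card = j))
            ?_ ?_ ?_ ?_ ?_) (Nat.pow_le_pow_right hR1 (by omega : j ≤ k))
          · intro a ha
            exact (hA a (h1 (mem_filter.1 ha).1)).1.ne'
          · intro a ha
            exact hUs a (h1 (mem_filter.1 ha).1)
          · intro a ha
            exact (mem_filter.1 ha).2
          · intro p hp a ha b hb
            exact h3 p hp a (mem_filter.1 ha).1 b (mem_filter.1 hb).1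
          · intro S hS
            exact hfree S ((hS.trans (filter_subset _ _)).trans h1)
      _ = (k + 1) * R ^ k := by rw [sum_const, card_range, smul_eq_mul]
  rw [hw] at h2
  have h5 : (A.card : ℝ) ≤ 2 ^ k * A'.card := by
    have hp : (0:ℝ) < 2 ^ k := by positivity
    have : (A.card : ℝ) = 2 ^ k * (A.card * (1 / 2 : ℝ) ^ k) := by
      rw [one_div, inv_pow]; field_simp
    rw [this]
    exact mul_le_mul_of_nonneg_left h2 hp.le
  have h6 : A.card ≤ 2 ^ k * A'.card := by exact_mod_cast h5
  have h7 : k + 1 ≤ 2 ^ k := Nat.lt_two_pow_self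
  calc A.card ≤ 2 ^ k * A'.card := h6
    _ ≤ 2 ^ k * (2 ^ k * R ^ k) := Nat.mul_le_mul_left _ (h4.trans (Nat.mul_le_mul_right _ h7))
    _ = (256 * r ^ 2 * (Nat.log 2 k + 1)) ^ k := by
        rw [← mul_pow, ← mul_pow, hR]
        congr 1
        ring

end Pool.Agent.Y904.GS
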