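import Pool.Agent.Y904.GS.Sun

/-!
# gcd-sunflowers: choosing the exponents
-/

set_option autoImplicit false

namespace Pool.Agent.Y904.GS

open Finset

/-- the weight `∏ 2^(-v_p(a))` -/
noncomputable def wt (U : Finset ℕ) (a : ℕ) : ℝ := ∏ p ∈ U, (1 / 2 : ℝ) ^ (a.factorization p)

theorem wt_nonneg (U : Finset ℕ) (a : ℕ) : 0 ≤ wt U a := prod_nonneg fun p _ => by positivity

theorem half_sum (K : ℕ) : ∑ i ∈ range K, (1 / 2 : ℝ) ^ (i + 1) = 1 - (1 / 2) ^ K := by
  induction K with
  | zero => simp
  | succ K ih => rw [sum_range_succ, ih, pow_succ]; ring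

/-- a large subfamily in which the exponents are determined by the primes -/
theorem pick (U : Finset ℕ) : ∀ A : Finset ℕ, ∃ A' ⊆ A, ∑ a ∈ A, wt U a ≤ (A'.card : ℝ) ∧
    ∀ p ∈ U, ∀ a ∈ A', ∀ b ∈ A', a.factorization p ≠ 0 → b.factorization p ≠ 0 →
      a.factorization p = b.factorization p := by
  induction U using Finset.induction_on with
  | empty =>
    intro A
    refine ⟨A, subset_rfl, ?_, by simp⟩
    simp [wt]
  | insert p U hp ih =>
    intro A
    set K := A.sup (fun a => a.factorization p) + 1 with hK
    let X : ℕ → ℝ := fun j => ∑ a ∈ A.filter (fun a => a.factorization p = j), wt U a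
    have hX0 : ∀ j, 0 ≤ X j := fun j => sum_nonneg fun a _ => wt_nonneg U a
    obtain ⟨j, hj, hmax⟩ := Finset.exists_max_image (Finset.Icc 1 K) X ⟨1, by simp [hK]⟩
    rw [mem_Icc] at hj
    obtain ⟨A', h1, h2, h3⟩ := ih (A.filter (fun a => a.factorization p = 0 ∨ a.factorization p = j))
    refine ⟨A', h1.trans (filter_subset _ _), ?_, ?_⟩
    · refine le_trans ?_ h2
      have e1 : ∀ a, wt (insert p U) a = (1 / 2) ^ (a.factorization p) * wt U a := fun a => by
        unfold wt; rw [prod_insert hp]
      have e2 : ∑ a ∈ A, wt (insert p U) a = ∑ i ∈ range (K + 1), (1 / 2 : ℝ) ^ i * X i := by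
        rw [← Finset.sum_fiberwise_of_maps_to (s := A) (t := range (K + 1))
          (g := fun a => a.factorization p) (fun a ha => by
            rw [mem_range]
            have : a.factorization p ≤ A.sup (fun a => a.factorization p) :=
              Finset.le_sup (f := fun a => a.factorization p) ha
            omega)]
        apply sum_congr rfl
        intro i _
        simp only [X]
        rw [mul_sum]
        apply sum_congr rfl
        intro a ha
        rw [mem_filter] at ha
        rw [e1, ha.2]
      have e3 : ∑ a ∈ A.filter (fun a => a.factorization p = 0 ∨ a.factorization p = j), wt U a =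
          X 0 + X j := by
        simp only [X]
        rw [filter_or, sum_union]
        rw [disjoint_filter]
        intro a _ h h'
        omega
      rw [e2, e3, sum_range_succ']
      have e4 : ∑ i ∈ range K, (1 / 2 : ℝ) ^ (i + 1) * X (i + 1) ≤ X j := by
        calc _ ≤ ∑ i ∈ range K, (1 / 2 : ℝ) ^ (i + 1) * X j := by
              apply sum_le_sum
              intro i hi
              rw [mem_range] at hi
              exact mul_le_mul_of_nonneg_left (hmax (i + 1) (by rw [mem_Icc]; omega)) (by positivity)
          _ = (1 - (1 / 2) ^ K) * X j := by rw [← sum_mul, half_sum]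
          _ ≤ 1 * X j := by
              apply mul_le_mul_of_nonneg_right _ (hX0 j)
              have : (0:ℝ) ≤ (1 / 2) ^ K := by positivity
              linarith
          _ = X j := one_mul _
      simp only [pow_zero, one_mul]
      linarith
    · intro q hq a ha b hb hqa hqb
      rw [mem_insert] at hq
      rcases hq with rfl | hq
      · have ha' := (mem_filter.1 (h1 ha)).2
        have hb' := (mem_filter.1 (h1 hb)).2
        omega
      · exact h3 q hq a ha b hb hqa hqb

/-- A finite set of positive integers is a gcd-sunflower. -/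
def IsGcdSunflower (S : Finset ℕ) : Prop :=
  ∃ d : ℕ, 0 < d ∧ (∀ a ∈ S, ∀ b ∈ S, a ≠ b → Nat.gcd a b = d) ∧
    ∀ a ∈ S, ∃ b : ℕ, a = d * b ∧ Nat.Coprime b d

theorem lift {r : ℕ} (hr : 2 ≤ r) (a : Fin r → ℕ) (h0 : ∀ i, a i ≠ 0)
    (he : ∀ p i j, (a i).factorization p ≠ 0 → (a j).factorization p ≠ 0 →
      (a i).factorization p = (a j).factorization p)
    (Y : Finset ℕ) (hI : ∀ i j, i ≠ j → (a i).primeFactors ∩ (a j).primeFactors = Y)
    (hY : ∀ i, Y ⊂ (a i).primeFactors) :
    Function.Injective a ∧ IsGcdSunflower (univ.image a) := by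
  have hinj : Function.Injective a := by
    intro i j hij
    by_contra hne
    have h1 := hI i j hne
    rw [hij, inter_self] at h1
    exact (hY j).ne h1.symm
  refine ⟨hinj, ?_⟩
  set i0 : Fin r := ⟨0, by omega⟩ with hi0
  set i1 : Fin r := ⟨1, by omega⟩ with hi1
  have h01 : i0 ≠ i1 := by
    intro h
    have := congrArg Fin.val h
    simp [hi0, hi1] at this
  have hmem : ∀ i p, p ∈ (a i).primeFactors ↔ (a i).factorization p ≠ 0 := by
    intro i p
    rw [← Nat.support_factorization, Finsupp.mem_support_iff]
  have hg : ∀ i j, i ≠ j → ∀ p, (Nat.gcd (a i) (a j)).factorization p =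
      if p ∈ Y then (a i0).factorization p else 0 := by
    intro i j hij p
    rw [Nat.factorization_gcd (h0 i) (h0 j), Finsupp.inf_apply]
    split_ifs with hp
    · have hi : (a i).factorization p ≠ 0 := (hmem i p).1 ((hY i).1 hp)
      have hj : (a j).factorization p ≠ 0 := (hmem j p).1 ((hY j).1 hp)
      have hz : (a i0).factorization p ≠ 0 := (hmem i0 p).1 ((hY i0).1 hp)
      rw [he p i i0 hi hz, he p j i0 hj hz]
      exact min_self _
    · have h1 : ¬ (p ∈ (a i).primeFactors ∧ p ∈ (a j).primeFactors) := by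
        rw [← mem_inter, hI i j hij]; exact hp
      rw [hmem, hmem] at h1
      by_cases hi : (a i).factorization p = 0
      · rw [hi]; exact Nat.zero_min _
      · have hj : (a j).factorization p = 0 := by
          by_contra hj
          exact h1 ⟨hi, hj⟩
        rw [hj]; exact Nat.min_zero _
  set d := Nat.gcd (a i0) (a i1) with hd
  have hd0 : 0 < d := Nat.gcd_pos_of_pos_left _ (Nat.pos_of_ne_zero (h0 i0))
  have hgd : ∀ i j, i ≠ j → Nat.gcd (a i) (a j) = d := by
    intro i j hij
    apply Nat.eq_of_factorization_eq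
    · exact (Nat.gcd_pos_of_pos_left _ (Nat.pos_of_ne_zero (h0 i))).ne'
    · exact hd0.ne'
    · intro p
      rw [hg i j hij p, hd, hg i0 i1 h01 p]
  refine ⟨d, hd0, ?_, ?_⟩
  · intro x hx y hy hxy
    obtain ⟨i, -, rfl⟩ := mem_image.1 hx
    obtain ⟨j, -, rfl⟩ := mem_image.1 hy
    exact hgd i j (fun h => hxy (by rw [h]))
  · intro x hx
    obtain ⟨i, -, rfl⟩ := mem_image.1 hx
    obtain ⟨j, hij⟩ : ∃ j, i ≠ j := by
      by_cases h : i = i0
      · exact ⟨i1, by rw [h]; exact h01⟩
      · exact ⟨i0, h⟩
    have hdvd : d ∣ a i := by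
      rw [← hgd i j hij]
      exact Nat.gcd_dvd_left _ _
    obtain ⟨b, hb⟩ := hdvd
    refine ⟨b, hb, ?_⟩
    have hb0 : b ≠ 0 := by
      rintro rfl
      exact h0 i (by rw [hb, mul_zero])
    by_contra hcop
    rw [Nat.Prime.not_coprime_iff_dvd] at hcop
    obtain ⟨p, hp, hpb, hpd⟩ := hcop
    have hpd' : d.factorization p ≠ 0 := (hp.factorization_pos_of_dvd hd0.ne' hpd).ne'
    have hpb' : b.factorization p ≠ 0 := (hp.factorization_pos_of_dvd hb0 hpb).ne'
    have h1 : d.factorization p = if p ∈ Y then (a i0).factorization p else 0 := hg i0 i1 h01 p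
    by_cases hpY : p ∈ Y
    · rw [if_pos hpY] at h1
      have hi : (a i).factorization p ≠ 0 := (hmem i p).1 ((hY i).1 hpY)
      have hz : (a i0).factorization p ≠ 0 := (hmem i0 p).1 ((hY i0).1 hpY)
      have h2 := he p i i0 hi hz
      have h3 : (a i).factorization p = d.factorization p + b.factorization p := by
        rw [hb, Nat.factorization_mul hd0.ne' hb0, Finsupp.add_apply]
      omega
    · rw [if_neg hpY] at h1
      exact hpd' h1

end Pool.Agent.Y904.GS
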