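import Pool.Agent.H559R4.Dom

/-!
# The sunflower lemma with a logarithmic base

A family of more than `r ^ l` sets of size `l` contains a sunflower with `κ` petals, if
`r ≥ 64 B J κ`, `l < 2 ^ J` and `κ < 4 ^ B`.
The proof follows `Pool.Agent.H559R4.rainbow_sunflower` and uses the same lemmas.
-/

set_option autoImplicit false

namespace Pool.Agent.Y904.GS

open Finset Pool.Agent.H560R2 Pool.Agent.H559R4

open Classical in
theorem sunflower {V : Type*} [Fintype V] [DecidableEq V] {κ : ℕ} (B J r l : ℕ)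
    (hB1 : 1 ≤ B) (hJ1 : 1 ≤ J) (hκ : 1 ≤ κ) (hκB : κ < 4 ^ B) (hr : 64 * (B * J * κ) ≤ r)
    (hJ : l < 2 ^ J)
    (𝒮 : Finset (Finset V)) (hS : ∀ S ∈ 𝒮, S.card = l) (hbig : r ^ l < 𝒮.card) :
    ∃ Y : Finset V, ∃ P : Fin κ → Finset V, (∀ a, P a ∈ 𝒮 ∧ Y ⊂ P a) ∧
      ∀ a b, a ≠ b → P a ∩ P b = Y := by
  set Q := B * J * κ with hQ
  have hQ0 : 0 < Q := by rw [hQ]; positivity
  have : NeZero Q := ⟨hQ0.ne'⟩
  have hrpos : 0 < r := by omega
  -- maximal Y
  let 𝒴 : Finset (Finset V) := univ.filter (fun Y => Y.card ≤ l ∧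
    r ^ (l - Y.card) < (𝒮.filter (fun S => Y ⊆ S)).card)
  have hne : (∅ : Finset V) ∈ 𝒴 := by
    simp only [𝒴, mem_filter, mem_univ, true_and, card_empty, zero_le, tsub_zero,
      Finset.empty_subset, filter_true]
    exact hbig
  obtain ⟨Y, hY, hmax⟩ := Finset.exists_max_image 𝒴 Finset.card ⟨∅, hne⟩
  simp only [𝒴, mem_filter, mem_univ, true_and] at hY
  obtain ⟨hYl, hYbig⟩ := hY
  set I := 𝒮.filter (fun S => Y ⊆ S) with hI
  have hIpos : 1 < I.card := by
    have : 1 ≤ r ^ (l - Y.card) := Nat.one_le_pow _ _ hrpos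
    omega
  -- the link family is spread
  have hspread : ∀ Z : Finset V, (I.filter (fun S => Z ⊆ S \ Y)).card * r ^ Z.card ≤ I.card := by
    intro Z
    rcases Z.eq_empty_or_nonempty with rfl | hZ
    · simp
    · by_cases hdis : Disjoint Z Y
      · have hcu : (Y ∪ Z).card = Y.card + Z.card := Finset.card_union_of_disjoint hdis.symm
        have hsub : I.filter (fun S => Z ⊆ S \ Y) ⊆ 𝒮.filter (fun S => Y ∪ Z ⊆ S) := by
          intro S hS'
          obtain ⟨h1, h2⟩ := Finset.mem_filter.mp hS'
          obtain ⟨h3, h4⟩ := Finset.mem_filter.mp h1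
          exact Finset.mem_filter.mpr ⟨h3, Finset.union_subset h4 (h2.trans Finset.sdiff_subset)⟩
        by_cases hle : (Y ∪ Z).card ≤ l
        · have hnot : Y ∪ Z ∉ 𝒴 := by
            intro h
            have := hmax _ h
            rw [hcu] at this
            have hz : 0 < Z.card := Finset.card_pos.mpr hZ
            omega
          simp only [𝒴, mem_filter, mem_univ, true_and, not_and, not_lt] at hnot
          have h1 := hnot hle
          calc (I.filter (fun S => Z ⊆ S \ Y)).card * r ^ Z.card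
              ≤ r ^ (l - (Y ∪ Z).card) * r ^ Z.card :=
                Nat.mul_le_mul_right _ ((Finset.card_le_card hsub).trans h1)
            _ = r ^ (l - Y.card) := by
                rw [← pow_add]
                congr 1
                omega
            _ ≤ I.card := hYbig.le
        · have : 𝒮.filter (fun S => Y ∪ Z ⊆ S) = ∅ := by
            rw [Finset.filter_eq_empty_iff]
            intro S hSS hsub'
            have := Finset.card_le_card hsub'
            rw [hS S hSS] at this
            exact hle this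
          rw [this, Finset.subset_empty] at hsub
          rw [hsub]
          simp
      · have : I.filter (fun S => Z ⊆ S \ Y) = ∅ := by
          rw [Finset.filter_eq_empty_iff]
          intro S _ hsub
          apply hdis
          rw [Finset.disjoint_left]
          intro v hv hvY
          exact (Finset.mem_sdiff.mp (hsub hv)).2 hvY
        rw [this]
        simp
  let F : Fin κ → Finset V → Finset (V × Fin κ) := fun a0 S => (S \ Y).image (fun v => (v, a0))
  have hFmem : ∀ a0 S v a, (v, a) ∈ F a0 S ↔ v ∈ S \ Y ∧ a = a0 := by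
    intro a0 S v a
    simp only [F, mem_image, Prod.mk.injEq]
    constructor
    · rintro ⟨w, hw, rfl, rfl⟩
      exact ⟨hw, rfl⟩
    · rintro ⟨h1, rfl⟩
      exact ⟨v, h1, rfl, rfl⟩
  have hone : ∀ a0 : Fin κ,
      ((univ : Finset (V → Fin κ)).filter (fun c => ∀ S ∈ I, ¬ ∀ x ∈ F a0 S, c x.1 = x.2)).card *
        4 ^ B ≤ κ ^ Fintype.card V := by
    intro a0
    have hd : ∀ (h1 : ∀ i ∈ I, ∀ v a a', (v, a) ∈ F a0 i → (v, a') ∈ F a0 i → a = a')
        (h2 : ((univ : Finset (Om V κ B J Q)).filter
          (fun ω => ∀ i ∈ I, ¬ F a0 i ⊆ WB ω)).card * 4 ^ B ≤ Fintype.card (Om V κ B J Q)),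
        ((univ : Finset (V → Fin κ)).filter
          (fun c => ∀ S ∈ I, ¬ ∀ x ∈ F a0 S, c x.1 = x.2)).card * 4 ^ B ≤
            κ ^ Fintype.card V := by
      intro h1 h2
      convert dom (B := B) (J := J) (Q := Q) le_rfl I (F a0) h1 (by convert h2)
    apply hd
    · intro S _ v a a' h h'
      rw [hFmem] at h h'
      rw [h.2, h'.2]
    · have hph := phase (Q := Q) J r hr I (F a0) I.card (by
        intro S hSI
        refine lt_of_le_of_lt card_image_le ?_
        refine lt_of_le_of_lt (Finset.card_le_card Finset.sdiff_subset) ?_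
        rw [hS S (Finset.mem_filter.mp hSI).1]
        exact hJ) (by
        intro Z
        by_cases hZ : ∃ S ∈ I, Z ⊆ F a0 S
        · obtain ⟨S0, hS0, hZS0⟩ := hZ
          have hinj : Set.InjOn Prod.fst (Z : Set (V × Fin κ)) := by
            rintro ⟨v, a⟩ h1 ⟨v', a'⟩ h2 h3
            simp only at h3
            subst h3
            have e1 := (hFmem _ _ _ _).1 (hZS0 h1)
            have e2 := (hFmem _ _ _ _).1 (hZS0 h2)
            rw [e1.2, e2.2]
          have hc : (Z.image Prod.fst).card = Z.card := card_image_of_injOn hinj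
          rw [← hc]
          refine le_trans (Nat.mul_le_mul_right _ (card_le_card ?_)) (hspread (Z.image Prod.fst))
          intro S hSf
          rw [mem_filter] at hSf ⊢
          refine ⟨hSf.1, ?_⟩
          intro v hv
          obtain ⟨⟨v', a⟩, hx, rfl⟩ := mem_image.1 hv
          exact ((hFmem _ _ _ _).1 (hSf.2 hx)).1
        · have : I.filter (fun S => Z ⊆ F a0 S) = ∅ := by
            rw [filter_eq_empty_iff]
            intro S hSI hsub
            exact hZ ⟨S, hSI, hsub⟩
          rw [this]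
          simp)
      have hfail : (failJ Q J I (F a0)).card * 4 ≤ (Q ^ Fintype.card (V × Fin κ)) ^ J := by
        have hIq : (0 : ℚ) < (I.card : ℚ) := by exact_mod_cast (by omega : 0 < I.card)
        have h1 : ((failJ Q J I (F a0)).card : ℚ) ≤
            cJ J * ((Q : ℚ) ^ (Fintype.card (V × Fin κ))) ^ J := by
          refine le_of_mul_le_mul_right ?_ hIq
          calc _ ≤ _ := hph
            _ = _ := by ring
        have h2 : ((failJ Q J I (F a0)).card : ℚ) ≤
            1 / 4 * ((Q : ℚ) ^ (Fintype.card (V × Fin κ))) ^ J :=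
          h1.trans (mul_le_mul_of_nonneg_right (cJ_le J) (by positivity))
        have h3 : ((failJ Q J I (F a0)).card : ℚ) * 4 ≤
            ((Q : ℚ) ^ (Fintype.card (V × Fin κ))) ^ J := by linarith
        exact_mod_cast h3
      refine le_trans (Nat.mul_le_mul_right (4 ^ B) (Finset.card_le_card
        (t := Fintype.piFinset (fun _ : Fin B => failJ Q J I (F a0))) ?_)) ?_
      · intro ω hω
        rw [Finset.mem_filter] at hω
        replace hω := hω.2
        rw [Fintype.mem_piFinset]
        intro b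
        rw [mem_failJ]
        intro S hSI hsub
        apply hω S hSI
        refine hsub.trans ?_
        intro v hv
        obtain ⟨j, hj⟩ := (mem_WJ _ _).mp hv
        exact (mem_WB _ _).mpr ⟨b, j, hj⟩
      · rw [Fintype.card_piFinset]
        simp only [Finset.prod_const, Finset.card_univ, Fintype.card_fin, Fintype.card_fun]
        calc (failJ Q J I (F a0)).card ^ B * 4 ^ B
            = ((failJ Q J I (F a0)).card * 4) ^ B := by rw [mul_pow]
          _ ≤ _ := Nat.pow_le_pow_left hfail B
  -- a good colouring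
  have hex : ∃ c : V → Fin κ, ∀ a0 : Fin κ, ∃ S ∈ I, ∀ x ∈ F a0 S, c x.1 = x.2 := by
    by_contra hcon
    push Not at hcon
    have hcov : (univ : Finset (V → Fin κ)) ⊆ (univ : Finset (Fin κ)).biUnion (fun a0 =>
        (univ : Finset (V → Fin κ)).filter (fun c => ∀ S ∈ I, ¬ ∀ x ∈ F a0 S, c x.1 = x.2)) := by
      intro c _
      obtain ⟨a0, ha0⟩ := hcon c
      rw [mem_biUnion]
      refine ⟨a0, mem_univ _, ?_⟩
      rw [mem_filter]
      refine ⟨mem_univ _, fun S hSI hall => ?_⟩
      obtain ⟨x, hx1, hx2⟩ := ha0 S hSI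
      exact hx2 (hall x hx1)
    have h1 : κ ^ Fintype.card V ≤ ∑ a0 : Fin κ, ((univ : Finset (V → Fin κ)).filter
        (fun c => ∀ S ∈ I, ¬ ∀ x ∈ F a0 S, c x.1 = x.2)).card := by
      calc κ ^ Fintype.card V = (univ : Finset (V → Fin κ)).card := by
            rw [card_univ, Fintype.card_fun, Fintype.card_fin]
        _ ≤ _ := (card_le_card hcov).trans card_biUnion_le
    have h2 : κ ^ Fintype.card V * 4 ^ B ≤ κ * κ ^ Fintype.card V := by
      calc κ ^ Fintype.card V * 4 ^ B ≤ (∑ a0 : Fin κ, ((univ : Finset (V → Fin κ)).filter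
            (fun c => ∀ S ∈ I, ¬ ∀ x ∈ F a0 S, c x.1 = x.2)).card) * 4 ^ B :=
            Nat.mul_le_mul_right _ h1
        _ ≤ ∑ _a0 : Fin κ, κ ^ Fintype.card V := by
            rw [sum_mul]
            exact sum_le_sum fun a0 _ => hone a0
        _ = κ * κ ^ Fintype.card V := by simp
    have h3 : 0 < κ ^ Fintype.card V := by positivity
    nlinarith
  obtain ⟨c, hc⟩ := hex
  choose P hP1 hP2 using hc
  have hYlt : ∀ a0, Y ⊂ P a0 := by
    intro a0
    obtain ⟨h1, h2⟩ := Finset.mem_filter.mp (hP1 a0)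
    refine Finset.ssubset_iff_subset_ne.2 ⟨h2, fun he => ?_⟩
    have hYc : Y.card = l := by rw [he]; exact hS _ h1
    have : I ⊆ {Y} := by
      intro S hSI
      obtain ⟨h3, h4⟩ := Finset.mem_filter.mp hSI
      rw [mem_singleton]
      exact (Finset.eq_of_subset_of_card_le h4 (by rw [hS S h3, hYc])).symm
    have := card_le_card this
    rw [card_singleton] at this
    omega
  refine ⟨Y, P, fun a0 => ⟨(Finset.mem_filter.mp (hP1 a0)).1, hYlt a0⟩, fun a b hab => ?_⟩
  ext v
  rw [mem_inter]
  constructor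
  · rintro ⟨h1, h2⟩
    by_contra hvY
    have e1 := hP2 a (v, a) ((hFmem _ _ _ _).2 ⟨mem_sdiff.2 ⟨h1, hvY⟩, rfl⟩)
    have e2 := hP2 b (v, b) ((hFmem _ _ _ _).2 ⟨mem_sdiff.2 ⟨h2, hvY⟩, rfl⟩)
    exact hab (e1.symm.trans e2)
  · intro hv
    exact ⟨(hYlt a).1 hv, (hYlt b).1 hv⟩

end Pool.Agent.Y904.GS
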